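import Mathlib

/-!
Nonvanishing (the case `κ(A) = 0` of the Campana-Peternell conjecture) for varieties with
semipositive canonical bundle, or with many differential forms twisted by pluricanonical bundles,
in dimension `≤ 6` or with numerical dimension `≤ 3`.
-/

namespace Pool.H84.SC.Old

/-- Smooth projective complex varieties, prime divisors, `ℚ`-divisors modulo `ℚ`-linear
equivalence, pseudo-effective and numerically trivial classes, the Iitaka dimension `kod` (`⊥`
stands for `-∞`).  All the fields are elementary facts. -/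
structure Base where
  /-- The smooth projective varieties. -/
  Var : Type
  /-- The dimension. -/
  dim : Var → ℕ
  /-- The prime divisors. -/
  PD : Var → Type
  /-- The `ℚ`-divisors modulo `ℚ`-linear equivalence. -/
  Div : Var → Type
  [grp : ∀ X, AddCommGroup (Div X)]
  [mod : ∀ X, Module ℚ (Div X)]
  /-- The class of a `ℚ`-divisor. -/
  cl : ∀ X, (PD X →₀ ℚ) →ₗ[ℚ] Div X
  cl_surj : ∀ X D, ∃ N, cl X N = D
  /-- The canonical class. -/
  K : ∀ X, Div X
  /-- The pseudo-effective classes. -/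
  psef : ∀ X, Set (Div X)
  /-- The numerically trivial classes. -/
  num : ∀ X, Submodule ℚ (Div X)
  /-- The Iitaka dimension. -/
  kod : ∀ X, Div X → WithBot ℕ
  cl_psef : ∀ X N, 0 ≤ N → cl X N ∈ psef X
  psef_smul : ∀ X (D : Div X) (c : ℚ), 0 < c → D ∈ psef X → c • D ∈ psef X
  psef_lim : ∀ X (D E : Div X), (∀ ε : ℚ, 0 < ε → D + ε • E ∈ psef X) → D ∈ psef X
  kod_nonneg : ∀ X D, 0 ≤ kod X D ↔ ∃ N, 0 ≤ N ∧ cl X N = D
  kod_le : ∀ X D, kod X D ≤ (dim X : WithBot ℕ)
  kod_smul : ∀ X (D : Div X) (c : ℚ), 0 < c → kod X (c • D) = kod X D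
  kod_mono : ∀ X D N, 0 ≤ N → kod X D ≤ kod X (D + cl X N)
  /-- A class of Iitaka dimension `0` contains exactly one effective `ℚ`-divisor. -/
  rigid : ∀ X N N', 0 ≤ N → 0 ≤ N' → cl X N = cl X N' → kod X (cl X N) = 0 → N = N'

attribute [instance] Base.grp Base.mod

/-- A birational morphism `μ : X' → X` of smooth projective varieties together with a fibration
`f : X' → Y` (connected fibres) onto a smooth projective variety. -/
structure Model (T : Base) (X : T.Var) where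
  /-- The birational model `X'`. -/
  X' : T.Var
  /-- The base `Y`. -/
  Y : T.Var
  /-- The pull-back `μ^*` of divisors. -/
  pull : (T.PD X →₀ ℚ) →ₗ[ℚ] (T.PD X' →₀ ℚ)
  /-- The push-forward `μ_*` of divisors. -/
  push : (T.PD X' →₀ ℚ) →ₗ[ℚ] (T.PD X →₀ ℚ)
  /-- The pull-back `μ^*` of classes. -/
  pullC : T.Div X →ₗ[ℚ] T.Div X'
  pull_nonneg : ∀ N, 0 ≤ N → 0 ≤ pull N
  push_nonneg : ∀ N, 0 ≤ N → 0 ≤ push N
  cl_pull : ∀ N, T.cl X' (pull N) = pullC (T.cl X N)
  push_pull : ∀ N, push (pull N) = N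
  /-- The relative canonical divisor, effective and exceptional. -/
  E : T.PD X' →₀ ℚ
  E_nonneg : 0 ≤ E
  push_E : push E = 0
  K_eq : T.K X' = pullC (T.K X) + T.cl X' E
  kod_pull : ∀ D N, 0 ≤ N → push N = 0 → T.kod X' (pullC D + T.cl X' N) = T.kod X D
  num_push : ∀ N, T.cl X' N ∈ T.num X' → T.cl X (push N) ∈ T.num X
  /-- The pull-back `f^*` of divisors. -/
  pb : (T.PD Y →₀ ℚ) →ₗ[ℚ] (T.PD X' →₀ ℚ)
  /-- The pull-back `f^*` of classes. -/
  pbC : T.Div Y →ₗ[ℚ] T.Div X'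
  pb_nonneg : ∀ W, 0 ≤ W → 0 ≤ pb W
  cl_pb : ∀ W, T.cl X' (pb W) = pbC (T.cl Y W)
  num_pb : ∀ Q, Q ∈ T.num Y → pbC Q ∈ T.num X'

/-- The geometric generic fibre `G` of `f : X' → Y`: a smooth projective variety over an algebraic
closure of the function field of `Y`, hence over `ℂ`; with the restriction of divisors. -/
structure Fibre (T : Base) {X : T.Var} (M : Model T X) where
  /-- The geometric generic fibre. -/
  G : T.Var
  /-- The restriction of divisors to `G` (components not dominating `Y` restrict to `0`). -/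
  res : (T.PD M.X' →₀ ℚ) →ₗ[ℚ] (T.PD G →₀ ℚ)
  /-- The restriction of classes. -/
  resC : T.Div M.X' →ₗ[ℚ] T.Div G
  res_nonneg : ∀ N, 0 ≤ N → 0 ≤ res N
  cl_res : ∀ N, T.cl G (res N) = resC (T.cl M.X' N)
  /-- Adjunction. -/
  res_K : resC (T.K M.X') = T.K G
  res_pb : ∀ Q, resC (M.pbC Q) = 0
  /-- A divisor whose class comes from `Y` and which restricts to `0` on `G` is the pull-back of a
  divisor. -/
  vertical : ∀ V Q, res V = 0 → T.cl M.X' V = M.pbC Q → ∃ W, V = M.pb W ∧ T.cl M.Y W = Q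

/-- The canonical bundle formula of Fujino and Mori for `f : X' → Y` with `κ(G) = 0`:
`K_{X'} + S ~ f^*P + R` with `P = K_Y + B + M`, where `(Y, B + M)` is a generalised klt pair, `R, S`
are effective, `S` is `μ`-exceptional, `f(S)` has codimension `≥ 2`, and `R` contains no full fibre
over the generic point of a divisor of `Y`: every prime divisor `Γ` of `Y` is dominated by a
component `comp Γ` of `f^*Γ`, of multiplicity `mult Γ`, not contained in `R`. -/
structure CanonicalBundleFormula (T : Base) {X : T.Var} (M : Model T X) (F : Fibre T M) where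
  /-- The class `K_Y + B + M`. -/
  P : T.Div M.Y
  /-- The divisor `R`. -/
  R : T.PD M.X' →₀ ℚ
  /-- The divisor `S`. -/
  S : T.PD M.X' →₀ ℚ
  R_nonneg : 0 ≤ R
  S_nonneg : 0 ≤ S
  formula : T.K M.X' + T.cl M.X' S = M.pbC P + T.cl M.X' R
  push_S : M.push S = 0
  res_S : F.res S = 0
  /-- The component `comp Γ`. -/
  comp : T.PD M.Y → T.PD M.X'
  comp_inj : Function.Injective comp
  /-- The multiplicity of `comp Γ` in `f^*Γ`. -/
  mult : T.PD M.Y → ℚ
  one_le_mult : ∀ Γ, 1 ≤ mult Γ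
  pb_comp : ∀ W Γ, M.pb W (comp Γ) = mult Γ * W Γ
  R_comp : ∀ Γ, R (comp Γ) = 0
  S_comp : ∀ Γ, S (comp Γ) = 0
  /-- Numerical nonvanishing for generalised klt pairs in dimension `≤ 2` (Han, Liu). -/
  num_eff : T.dim M.Y ≤ 2 → P ∈ T.psef M.Y → ∃ W, 0 ≤ W ∧ P - T.cl M.Y W ∈ T.num M.Y

/-- Smooth projective complex varieties with the published theorems used below. -/
structure Theory extends Base where
  /-- The numerical dimension `κ_σ(K_X)` (Nakayama). -/
  nu : Var → WithBot ℕ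
  kod_le_nu : ∀ X N, 0 ≤ N → K X - cl X N ∈ psef X → kod X (cl X N) ≤ nu X
  /-- The Iitaka fibration `f : X' → Y` of an effective divisor `N₀`, with its geometric generic
  fibre `G`, the inequality `κ(μ^*N₀ + D) ≥ κ(D|_G) + dim Y` for effective `D`, and, if `κ(G) = 0`,
  the canonical bundle formula. -/
  iitaka : ∀ X N₀, 0 ≤ N₀ → 1 ≤ kod X (cl X N₀) →
    ∃ (M : Model toBase X) (F : Fibre toBase M), kod X (cl X N₀) = (dim M.Y : WithBot ℕ) ∧
      (∀ D, 0 ≤ D → kod F.G (cl F.G (F.res D)) + (dim M.Y : WithBot ℕ) ≤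
        kod M.X' (M.pullC (cl X N₀) + cl M.X' D)) ∧
      (kod F.G (K F.G) = 0 → Nonempty (CanonicalBundleFormula toBase M F))
  /-- Campana, Peternell, Toma: `κ(X) ≥ κ(N)` if `K_X` is numerically equivalent to the effective
  divisor `N`. -/
  cpt : ∀ X N, 0 ≤ N → K X - cl X N ∈ num X → kod X (cl X N) ≤ kod X (K X)
  /-- If `K_X - N` is pseudo-effective, `N` effective, and the general fibre of the Iitaka fibration
  of `N` has a good minimal model, then `κ(X) ≥ κ(N)` (Lai, Gongyo, Lehmann, Birkar, Cascini, Hacon,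
  McKernan); good minimal models exist for these fibres if their dimension is at most `3`, and also
  if `κ(N) = κ_σ(K_X)`, since then their numerical dimension is `0` (Nakayama, Gongyo, Druel). -/
  good : ∀ X N, 0 ≤ N → K X - cl X N ∈ psef X →
    ((dim X : WithBot ℕ) ≤ kod X (cl X N) + 3 ∨ kod X (cl X N) = nu X) →
    kod X (cl X N) ≤ kod X (K X)
  /-- The function field. -/
  Fn : Var → Type
  [field : ∀ X, Field (Fn X)]
  /-- The rational sections of `(Ω¹_X)^{⊗p}`; a rational canonical form being fixed, they are also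
  the rational sections of `(Ω¹_X)^{⊗p} ⊗ O(mK_X)` for all `m`. -/
  Ten : Var → ℕ → Type
  [tenGrp : ∀ X p, AddCommGroup (Ten X p)]
  [tenMod : ∀ X p, Module (Fn X) (Ten X p)]
  [tenFin : ∀ X p, FiniteDimensional (Fn X) (Ten X p)]
  /-- The regular sections of `(Ω¹_X)^{⊗p} ⊗ O(mK_X)`. -/
  sec : ∀ X (p : ℕ), ℕ → Set (Ten X p)
  /-- For a subspace `W` of the rational tensors let `L` be the determinant of the saturated
  subsheaf of `(Ω¹_X)^{⊗p}` defined by `W`.  If `K_X` is pseudo-effective then `cK_X - L` is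
  pseudo-effective for some `c > 0` (Campana, Păun); the exterior product of regular sections of the
  twists by `m i • K_X` which form a basis of `W` is a nonzero section of `L + (∑ m i) K_X`. -/
  det : ∀ X, K X ∈ psef X → ∀ p, ∀ W : Submodule (Fn X) (Ten X p), ∃ L : Div X,
    (∃ c : ℚ, 0 < c ∧ c • K X - L ∈ psef X) ∧
    ∀ (ι : Type) [Fintype ι] (s : ι → Ten X p) (m : ι → ℕ), LinearIndependent (Fn X) s →
      Submodule.span (Fn X) (Set.range s) = W → (∀ i, s i ∈ sec X p (m i)) →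
      ∃ N, 0 ≤ N ∧ cl X N = L + ((∑ i, m i : ℕ) : ℚ) • K X
  /-- The canonical bundle has a (possibly singular) hermitian metric `h` with semipositive
  curvature and trivial multiplier ideals `I(h^m)`, `m ≥ 1`; for example a smooth metric with
  semipositive curvature. -/
  semipos : Var → Prop
  semipos_psef : ∀ X, semipos X → K X ∈ psef X
  /-- The Euler characteristic `χ(X, O(mK_X))`. -/
  chi : Var → ℤ → ℤ
  chi_poly : ∀ X, ∃ q : Polynomial ℚ, ∀ m : ℤ, (chi X m : ℚ) = q.eval (m : ℚ)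
  /-- The hard Lefschetz theorem (Takegoshi, Demailly, Peternell, Schneider):
  `H^0(X, Ω^{n-i} ⊗ O(mK_X)) → H^i(X, O((m+1)K_X))` is surjective for all `i`; and `Ω^p` is a direct
  summand of `(Ω¹)^{⊗p}`. -/
  lefschetz : ∀ X, semipos X → ∀ m : ℕ, (∀ p ≤ dim X, ∀ s ∈ sec X p m, s = 0) →
    chi X ((m : ℤ) + 1) = 0

attribute [instance] Theory.field Theory.tenGrp Theory.tenMod Theory.tenFin


theorem nat_of_nonneg {x : WithBot ℕ} (h : 0 ≤ x) : ∃ a : ℕ, x = a := by
  induction x using WithBot.recBotCoe with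
  | bot => exact absurd (le_bot_iff.1 h) (by simp)
  | coe a => exact ⟨a, rfl⟩

/-- Convexity of the Iitaka dimension. -/
theorem kod_conv (T : Base) {X : T.Var} (D E : T.Div X) (hE : 0 ≤ T.kod X E) (s t : ℚ) (h0 : 0 < s)
    (h1 : 0 ≤ t) : T.kod X D ≤ T.kod X (s • D + t • E) := by
  obtain ⟨N, hN, rfl⟩ := (T.kod_nonneg X E).1 hE
  calc T.kod X D = T.kod X (s • D) := (T.kod_smul X D s h0).symm
    _ ≤ T.kod X (s • D + T.cl X (t • N)) := T.kod_mono X _ _ (smul_nonneg h1 hN)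
    _ = _ := by rw [map_smul]

/-- If `L + kK` contains a unique effective divisor for infinitely many `k`, then these divisors
depend affinely on `k`, and so `K` is effective. -/
theorem affine (T : Base) {Z : T.Var} (L : T.Div Z) (S : Set ℕ) (hS : S.Infinite)
    (N : ℕ → (T.PD Z →₀ ℚ)) (h0 : ∀ k ∈ S, 0 ≤ N k)
    (hc : ∀ k ∈ S, T.cl Z (N k) = L + (k : ℚ) • T.K Z)
    (hk : ∀ k ∈ S, T.kod Z (T.cl Z (N k)) = 0) : T.kod Z (T.K Z) = 0 := by
  obtain ⟨a, ha, -⟩ := hS.exists_gt 0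
  obtain ⟨b, hb, hab⟩ := hS.exists_gt a
  have hab' : (0 : ℚ) < b - a := by
    have : (a : ℚ) < b := by exact_mod_cast hab
    linarith
  have hle : N a ≤ N b := by
    intro x
    by_contra hlt
    push Not at hlt
    obtain ⟨n, hn⟩ := exists_nat_gt (((b : ℚ) - a) * N a x / (N a x - N b x) + a)
    obtain ⟨k, hkS, hk1⟩ := hS.exists_gt (max n b)
    have hkn : n < k := lt_of_le_of_lt (le_max_left _ _) hk1
    have hkb : b < k := lt_of_le_of_lt (le_max_right _ _) hk1
    have hkn' : (n : ℚ) < k := by exact_mod_cast hkn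
    have hkb' : (b : ℚ) < k := by exact_mod_cast hkb
    have hka : (0 : ℚ) < k - a := by linarith
    have hδ : 0 < N a x - N b x := by linarith
    set t : ℚ := (k - b) / (k - a) with ht
    have ht0 : 0 ≤ t := div_nonneg (by linarith) hka.le
    have ht1 : 0 ≤ 1 - t := by
      rw [ht, sub_nonneg, div_le_one hka]
      linarith
    have e1 : N b = t • N a + (1 - t) • N k := by
      have hpos : 0 ≤ t • N a + (1 - t) • N k :=
        add_nonneg (smul_nonneg ht0 (h0 a ha)) (smul_nonneg ht1 (h0 k hkS))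
      refine T.rigid Z _ _ (h0 b hb) hpos ?_ (hk b hb)
      rw [map_add, map_smul, map_smul, hc a ha, hc b hb, hc k hkS]
      have e2 : t * a + (1 - t) * k = b := by
        rw [ht]
        field_simp
        ring
      have e3 : t • (L + (a : ℚ) • T.K Z) + (1 - t) • (L + (k : ℚ) • T.K Z) =
          L + (t * a + (1 - t) * k) • T.K Z := by
        module
      rw [e3, e2]
    have e4 : N b x = t * N a x + (1 - t) * N k x := by
      have := congrArg (fun f => f x) e1
      simpa using this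
    have e5 : 0 ≤ N k x := h0 k hkS x
    have e6 : t * N a x ≤ N b x := by
      rw [e4]
      have := mul_nonneg ht1 e5
      linarith
    have e7 : (k - b) * N a x ≤ (k - a) * N b x := by
      have h1 := mul_le_mul_of_nonneg_left e6 hka.le
      have h2 : ((k : ℚ) - a) * (t * N a x) = (k - b) * N a x := by
        rw [ht]
        field_simp
      rw [h2] at h1
      exact h1
    have e8 : ((b : ℚ) - a) * N a x / (N a x - N b x) < k - a := by linarith
    rw [div_lt_iff₀ hδ] at e8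
    nlinarith
  apply le_antisymm
  · calc T.kod Z (T.K Z) = T.kod Z (((b : ℚ) - a) • T.K Z) := (T.kod_smul Z _ _ hab').symm
      _ ≤ T.kod Z (((b : ℚ) - a) • T.K Z + T.cl Z (N a)) := T.kod_mono Z _ _ (h0 a ha)
      _ = T.kod Z (T.cl Z (N b)) := by
        rw [hc a ha, hc b hb]
        congr 1
        module
      _ = 0 := hk b hb
  · refine (T.kod_nonneg Z _).2 ⟨((b : ℚ) - a)⁻¹ • (N b - N a), ?_, ?_⟩
    · exact smul_nonneg (by positivity) (sub_nonneg.2 hle)
    · rw [map_smul, map_sub, hc a ha, hc b hb]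
      have : (L + (b : ℚ) • T.K Z - (L + (a : ℚ) • T.K Z)) = ((b : ℚ) - a) • T.K Z := by module
      rw [this, smul_smul, inv_mul_cancel₀ hab'.ne', one_smul]

/-- The Iitaka dimension of `L + kK` is eventually constant, and so is that of the sums. -/
theorem stable (T : Base) {X : T.Var} (L : T.Div X) (S : Set ℕ) (hS : S.Infinite)
    (N : ℕ → (T.PD X →₀ ℚ)) (h0 : ∀ k ∈ S, 0 ≤ N k)
    (hc : ∀ k ∈ S, T.cl X (N k) = L + (k : ℚ) • T.K X) :
    ∃ (a : ℕ) (d : ℕ), a ∈ S ∧ 1 ≤ a ∧ (∀ k ∈ S, a ≤ k → T.kod X (T.cl X (N k)) = d) ∧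
      ∀ k ∈ S, a ≤ k → T.kod X (T.cl X (N a) + T.cl X (N k)) ≤ d := by
  have hnn : ∀ k ∈ S, 0 ≤ T.kod X (T.cl X (N k)) := fun k hk =>
    (T.kod_nonneg X _).2 ⟨N k, h0 k hk, rfl⟩
  have hmono : ∀ k ∈ S, ∀ k' ∈ S, k ≤ k' →
      T.kod X (T.cl X (N k)) ≤ T.kod X (T.cl X (N k')) := by
    intro k hk k' hk' hkk
    rcases eq_or_lt_of_le hkk with h | h
    · rw [h]
    obtain ⟨k'', hk'', h2⟩ := hS.exists_gt k'
    have h1' : (k : ℚ) < k' := by exact_mod_cast h
    have h2' : (k' : ℚ) < k'' := by exact_mod_cast h2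
    have hpos : (0 : ℚ) < k'' - k := by linarith
    obtain ⟨s, hs⟩ : ∃ s : ℚ, s = (k'' - k') / (k'' - k) := ⟨_, rfl⟩
    obtain ⟨t, ht⟩ : ∃ t : ℚ, t = (k' - k) / (k'' - k) := ⟨_, rfl⟩
    have hs0 : 0 < s := hs ▸ div_pos (by linarith) hpos
    have ht0 : 0 ≤ t := ht ▸ div_nonneg (by linarith) hpos.le
    have e1 : s + t = 1 := by
      rw [hs, ht]
      field_simp
      ring
    have e2 : s * k + t * k'' = k' := by
      rw [hs, ht]
      field_simp
      ring
    refine (kod_conv T _ (T.cl X (N k'')) (hnn k'' hk'') s t hs0 ht0).trans (le_of_eq ?_)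
    rw [hc k hk, hc k' hk', hc k'' hk'']
    congr 1
    have e3 : s • (L + (k : ℚ) • T.K X) + t • (L + (k'' : ℚ) • T.K X) =
        (s + t) • L + (s * k + t * k'') • T.K X := by
      module
    rw [e3, e1, e2, one_smul]
  -- the maximal value
  let A : Set ℕ := {a | ∃ k ∈ S, T.kod X (T.cl X (N k)) = a}
  have hAne : A.Nonempty := by
    obtain ⟨k, hk, -⟩ := hS.exists_gt 0
    obtain ⟨a, ha⟩ := nat_of_nonneg (hnn k hk)
    exact ⟨a, k, hk, ha⟩
  have hAbd : BddAbove A := by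
    refine ⟨T.dim X, ?_⟩
    rintro a ⟨k, hk, ha⟩
    have := T.kod_le X (T.cl X (N k))
    rw [ha] at this
    exact_mod_cast this
  obtain ⟨k₀, hk₀, hd⟩ := Nat.sSup_mem hAne hAbd
  set d := sSup A with hdd
  have hmax : ∀ k ∈ S, T.kod X (T.cl X (N k)) ≤ d := by
    intro k hk
    obtain ⟨a, ha⟩ := nat_of_nonneg (hnn k hk)
    rw [ha]
    exact_mod_cast le_csSup hAbd ⟨k, hk, ha⟩
  have hst : ∀ k ∈ S, k₀ ≤ k → T.kod X (T.cl X (N k)) = d := fun k hk hle =>
    le_antisymm (hmax k hk) (hd ▸ hmono k₀ hk₀ k hk hle)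
  obtain ⟨a, ha, hka⟩ := hS.exists_gt k₀
  refine ⟨a, d, ha, by omega, fun k hk hle => hst k hk (by omega), ?_⟩
  intro k hk hle
  obtain ⟨k₂, hk₂, h2⟩ := hS.exists_gt k
  obtain ⟨k₃, hk₃, h3⟩ := hS.exists_gt k₂
  have h1' : (a : ℚ) ≤ k := by exact_mod_cast hle
  have h2' : (k : ℚ) < k₂ := by exact_mod_cast h2
  have h3' : (k₂ : ℚ) < k₃ := by exact_mod_cast h3
  have hpos : (0 : ℚ) < 2 * k₃ - a - k := by linarith
  obtain ⟨s, hs⟩ : ∃ s : ℚ, s = (k₃ - k₂) / (2 * k₃ - a - k) := ⟨_, rfl⟩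
  obtain ⟨t, ht⟩ : ∃ t : ℚ, t = (2 * k₂ - a - k) / (2 * k₃ - a - k) := ⟨_, rfl⟩
  have hs0 : 0 < s := hs ▸ div_pos (by linarith) hpos
  have ht0 : 0 ≤ t := ht ▸ div_nonneg (by linarith) hpos.le
  have hsm : s * (2 * k₃ - a - k) = k₃ - k₂ := by
    rw [hs]
    exact div_mul_cancel₀ _ hpos.ne'
  have htm : t * (2 * k₃ - a - k) = 2 * k₂ - a - k := by
    rw [ht]
    exact div_mul_cancel₀ _ hpos.ne'
  have e1 : 2 * s + t = 1 := by
    have : (2 * s + t) * (2 * k₃ - a - k) = 1 * (2 * k₃ - a - k) := by linarith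
    exact mul_right_cancel₀ hpos.ne' this
  have e2 : s * (a + k) + t * k₃ = k₂ := by
    have : (s * (a + k) + t * k₃) * (2 * k₃ - a - k) = k₂ * (2 * k₃ - a - k) := by
      linear_combination (a + k : ℚ) * hsm + (k₃ : ℚ) * htm
    exact mul_right_cancel₀ hpos.ne' this
  refine (kod_conv T _ (T.cl X (N k₃)) (hnn k₃ hk₃) s t hs0 ht0).trans (le_of_eq ?_)
  rw [← hst k₂ hk₂ (by omega), hc a ha, hc k hk, hc k₂ hk₂, hc k₃ hk₃]
  congr 1
  have e3 : s • (L + (a : ℚ) • T.K X + (L + (k : ℚ) • T.K X)) + t • (L + (k₃ : ℚ) • T.K X) =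
      (2 * s + t) • L + (s * (a + k) + t * k₃) • T.K X := by
    module
  rw [e3, e1, e2, one_smul]

/-- If `κ(G) = 0` and `L + kK` is effective, with restriction to `G` of Iitaka dimension `0`, for
infinitely many `k`, then the class `P = K_Y + B + M` of the canonical bundle formula is
pseudo-effective. -/
theorem base_psef (T : Base) {X : T.Var} (M : Model T X) (F : Fibre T M)
    (C : CanonicalBundleFormula T M F) (L : T.Div M.X') (S : Set ℕ) (hS : S.Infinite)
    (D : ℕ → (T.PD M.X' →₀ ℚ)) (h0 : ∀ k ∈ S, 0 ≤ D k)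
    (hc : ∀ k ∈ S, T.cl M.X' (D k) = L + (k : ℚ) • T.K M.X')
    (hk : ∀ k ∈ S, T.kod F.G (T.cl F.G (F.res (D k))) = 0) : C.P ∈ T.psef M.Y := by
  obtain ⟨a, ha, -⟩ := hS.exists_gt 0
  have hKG : T.K F.G = T.cl F.G (F.res C.R) := by
    have h1 := congrArg F.resC C.formula
    rw [map_add, map_add, F.res_K, F.res_pb, ← F.cl_res, ← F.cl_res, C.res_S, map_zero, add_zero,
      zero_add] at h1
    exact h1
  let N : T.PD M.Y →₀ ℚ := Finsupp.comapDomain C.comp (D a) C.comp_inj.injOn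
  have hN : ∀ Γ, N Γ = D a (C.comp Γ) := fun Γ => by
    simp [N, Finsupp.comapDomain_apply]
  have hN0 : 0 ≤ N := fun Γ => by
    rw [hN]
    exact h0 a ha _
  have key : ∀ k ∈ S, a < k → ∃ W, 0 ≤ W + N ∧ T.cl M.Y W = ((k : ℚ) - a) • C.P := by
    intro k hkS hak
    have hak' : (0 : ℚ) < k - a := by
      have : (a : ℚ) < k := by exact_mod_cast hak
      linarith
    have e1 : F.res (D k) = F.res (D a) + ((k : ℚ) - a) • F.res C.R := by
      refine T.rigid F.G _ _ (F.res_nonneg _ (h0 k hkS)) (add_nonneg (F.res_nonneg _ (h0 a ha))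
        (smul_nonneg hak'.le (F.res_nonneg _ C.R_nonneg))) ?_ (hk k hkS)
      rw [map_add, map_smul, ← hKG, F.cl_res, F.cl_res, hc k hkS, hc a ha, map_add, map_add,
        map_smul, map_smul, F.res_K]
      module
    let V : T.PD M.X' →₀ ℚ := D k - D a - ((k : ℚ) - a) • (C.R - C.S)
    have hV : V = D k - D a - ((k : ℚ) - a) • (C.R - C.S) := rfl
    have e2 : F.res V = 0 := by
      rw [hV, map_sub, map_sub, map_smul, map_sub, C.res_S, e1]
      module
    have e3 : T.cl M.X' V = M.pbC (((k : ℚ) - a) • C.P) := by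
      have h1 : T.K M.X' = M.pbC C.P + T.cl M.X' C.R - T.cl M.X' C.S := by
        rw [← C.formula]
        abel
      rw [hV, map_sub, map_sub, map_smul, map_sub, map_smul, hc k hkS, hc a ha]
      have h2 : (L + (k : ℚ) • T.K M.X' - (L + (a : ℚ) • T.K M.X')) =
          ((k : ℚ) - a) • T.K M.X' := by module
      rw [h2, h1]
      module
    obtain ⟨W, hW1, hW2⟩ := F.vertical V _ e2 e3
    refine ⟨W, fun Γ => ?_, hW2⟩
    have e4 : D k (C.comp Γ) - D a (C.comp Γ) = C.mult Γ * W Γ := by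
      rw [← C.pb_comp, ← hW1, hV]
      simp [C.R_comp, C.S_comp]
    have e5 : 0 ≤ D k (C.comp Γ) := h0 k hkS _
    have e6 : 0 ≤ D a (C.comp Γ) := h0 a ha _
    have e7 := C.one_le_mult Γ
    have e8 : (W + N) Γ = W Γ + D a (C.comp Γ) := by
      rw [Finsupp.add_apply, hN]
    rw [Finsupp.coe_zero, Pi.zero_apply, e8]
    rcases le_or_gt 0 (W Γ) with h | h
    · linarith
    · nlinarith
  refine T.psef_lim M.Y C.P (T.cl M.Y N) fun ε hε => ?_
  obtain ⟨n, hn⟩ := exists_nat_gt (1 / ε + a)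
  obtain ⟨k, hkS, hk1⟩ := hS.exists_gt (max n a)
  have hkn : (n : ℚ) < k := by exact_mod_cast lt_of_le_of_lt (le_max_left _ _) hk1
  have hka : a < k := lt_of_le_of_lt (le_max_right _ _) hk1
  obtain ⟨W, hW1, hW2⟩ := key k hkS hka
  have hpos : (0 : ℚ) < k - a := by
    have : (a : ℚ) < k := by exact_mod_cast hka
    linarith
  have hle : ((k : ℚ) - a)⁻¹ ≤ ε := by
    rw [inv_le_comm₀ hpos hε, ← one_div]
    linarith
  have e1 : C.P + ε • T.cl M.Y N =
      T.cl M.Y (((k : ℚ) - a)⁻¹ • (W + N) + (ε - ((k : ℚ) - a)⁻¹) • N) := by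
    rw [map_add, map_smul, map_smul, map_add, hW2, smul_add, smul_smul, inv_mul_cancel₀ hpos.ne',
      one_smul]
    module
  rw [e1]
  exact T.cl_psef _ _ (add_nonneg (smul_nonneg (by positivity) hW1)
    (smul_nonneg (by linarith) hN0))

/-- If `cK - L` is pseudo-effective and `L + kK` is effective for infinitely many `k`, then
`κ(X) ≥ 0`. -/
theorem main_divisor (T : Theory) (X : T.Var) (hX : T.dim X ≤ 6 ∨ T.nu X ≤ 3) (L : T.Div X)
    (c : ℚ) (hc0 : 0 < c) (hL : c • T.K X - L ∈ T.psef X) (S : Set ℕ) (hS : S.Infinite)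
    (hE : ∀ k ∈ S, ∃ N, 0 ≤ N ∧ T.cl X N = L + (k : ℚ) • T.K X) : 0 ≤ T.kod X (T.K X) := by
  classical
  choose! N h0 hc using hE
  obtain ⟨a, d, ha, ha1, hd, hsum⟩ := stable T.toBase L S hS N h0 hc
  let S' : Set ℕ := {k | k ∈ S ∧ a ≤ k}
  have hS' : S'.Infinite := by
    intro hfin
    obtain ⟨b, hb⟩ := hfin.bddAbove
    obtain ⟨k, hk, hkb⟩ := hS.exists_gt (max a b)
    have h1 : a ≤ k := (le_max_left a b).trans hkb.le
    have h2 : k ≤ b := hb ⟨hk, h1⟩
    have h3 : b < k := lt_of_le_of_lt (le_max_right a b) hkb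
    omega
  rcases Nat.eq_zero_or_pos d with hd0 | hd1
  · have := affine T.toBase L S' hS' N (fun k hk => h0 k hk.1) (fun k hk => hc k hk.1)
      (fun k hk => by rw [hd k hk.1 hk.2, hd0]; rfl)
    rw [this]
  have haq : (0 : ℚ) < c + a := by positivity
  -- a multiple of `N a` is bounded by `K`
  have hA0 : 0 ≤ (c + a)⁻¹ • N a := smul_nonneg (by positivity) (h0 a ha)
  have hA1 : T.K X - T.cl X ((c + a)⁻¹ • N a) ∈ T.psef X := by
    have e1 : T.K X - T.cl X ((c + a)⁻¹ • N a) = (c + a)⁻¹ • (c • T.K X - L) := by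
      rw [map_smul, hc a ha]
      obtain ⟨t, ht⟩ : ∃ t : ℚ, t = (c + a)⁻¹ := ⟨_, rfl⟩
      have h1 : t * (c + a) = 1 := by rw [ht, inv_mul_cancel₀ haq.ne']
      rw [← ht]
      calc T.K X - t • (L + (a : ℚ) • T.K X)
          = (1 : ℚ) • T.K X - t • (L + (a : ℚ) • T.K X) := by rw [one_smul]
        _ = (t * (c + a)) • T.K X - t • (L + (a : ℚ) • T.K X) := by rw [h1]
        _ = t • (c • T.K X - L) := by module
    rw [e1]
    exact T.psef_smul X _ _ (by positivity) hL
  have hA2 : T.kod X (T.cl X ((c + a)⁻¹ • N a)) = d := by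
    rw [map_smul, T.kod_smul X _ _ (by positivity), hd a ha le_rfl]
  have hd0' : (0 : WithBot ℕ) ≤ d := by exact_mod_cast Nat.zero_le d
  by_cases hgood : (T.dim X : WithBot ℕ) ≤ d + 3 ∨ (d : WithBot ℕ) = T.nu X
  · have := T.good X _ hA0 hA1 (by rw [hA2]; exact hgood)
    rw [hA2] at this
    exact hd0'.trans this
  push Not at hgood
  have hd2 : d ≤ 2 := by
    rcases hX with h | h
    · have h1 : d + 3 < T.dim X := by exact_mod_cast hgood.1
      omega
    · have h1 := T.kod_le_nu X _ hA0 hA1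
      rw [hA2] at h1
      have h2 : (d : WithBot ℕ) < 3 := lt_of_lt_of_le (lt_of_le_of_ne h1 hgood.2) h
      have h3 : d < 3 := by exact_mod_cast h2
      omega
  -- the common Iitaka fibration
  obtain ⟨M, F, hM, hF1, hF2⟩ := T.iitaka X (N a) (h0 a ha) (by
    rw [hd a ha le_rfl]
    exact_mod_cast hd1)
  have hdY : T.dim M.Y = d := by
    rw [hd a ha le_rfl] at hM
    exact_mod_cast hM.symm
  let D : ℕ → (T.PD M.X' →₀ ℚ) := fun k => M.pull (N k) + (k : ℚ) • M.E
  have hD : ∀ k, D k = M.pull (N k) + (k : ℚ) • M.E := fun k => rfl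
  have hD0 : ∀ k ∈ S', 0 ≤ D k := by
    intro k hk
    exact add_nonneg (M.pull_nonneg _ (h0 k hk.1)) (smul_nonneg (by positivity) M.E_nonneg)
  have hDc : ∀ k ∈ S', T.cl M.X' (D k) = M.pullC L + (k : ℚ) • T.K M.X' := by
    intro k hk
    rw [hD k, map_add, map_smul, M.cl_pull, hc k hk.1, M.K_eq, map_add, map_smul]
    module
  have hG : ∀ k ∈ S', T.kod F.G (T.cl F.G (F.res (D k))) = 0 := by
    intro k hk
    apply le_antisymm
    · have h1 := hF1 (D k) (hD0 k hk)
      have h2 : M.pullC (T.cl X (N a)) + T.cl M.X' (D k) =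
          M.pullC (T.cl X (N a) + T.cl X (N k)) + T.cl M.X' ((k : ℚ) • M.E) := by
        rw [hD k, map_add, M.cl_pull, map_add, add_assoc]
      rw [h2, M.kod_pull _ _ (smul_nonneg (by positivity) M.E_nonneg) (by
        rw [map_smul, M.push_E, smul_zero]), hdY] at h1
      have h3 := h1.trans (hsum k hk.1 hk.2)
      obtain ⟨b, hb⟩ := nat_of_nonneg ((T.kod_nonneg F.G _).2 ⟨_, F.res_nonneg _ (hD0 k hk), rfl⟩)
      rw [hb] at h3 ⊢
      have h4 : b + d ≤ d := by exact_mod_cast h3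
      have h5 : b = 0 := by omega
      rw [h5]
      rfl
    · exact (T.kod_nonneg F.G _).2 ⟨_, F.res_nonneg _ (hD0 k hk), rfl⟩
  have hKG : T.kod F.G (T.K F.G) = 0 := by
    refine affine T.toBase (F.resC (M.pullC L)) S' hS' (fun k => F.res (D k))
      (fun k hk => F.res_nonneg _ (hD0 k hk)) (fun k hk => ?_) hG
    rw [F.cl_res, hDc k hk, map_add, map_smul, F.res_K]
  obtain ⟨C⟩ := hF2 hKG
  have hP := base_psef T.toBase M F C (M.pullC L) S' hS' D hD0 hDc hG
  obtain ⟨W, hW0, hW⟩ := C.num_eff (by rw [hdY]; exact hd2) hP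
  -- `K` is numerically effective
  obtain ⟨k₀, hk₀⟩ := T.cl_surj X (T.K X)
  have hnum : T.cl M.X' (M.pull k₀ + M.E + C.S - (M.pb W + C.R)) ∈ T.num M.X' := by
    have e1 : T.cl M.X' (M.pull k₀ + M.E + C.S - (M.pb W + C.R)) =
        M.pbC (C.P - T.cl M.Y W) := by
      rw [map_sub, map_add, map_add, map_add, M.cl_pull, hk₀, M.cl_pb, ← M.K_eq, C.formula, map_sub]
      abel
    rw [e1]
    exact M.num_pb _ hW
  have hnum2 := M.num_push _ hnum
  have hpush : M.push (M.pull k₀ + M.E + C.S - (M.pb W + C.R)) =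
      k₀ - M.push (M.pb W + C.R) := by
    rw [map_sub, map_add, map_add, M.push_pull, M.push_E, C.push_S, add_zero, add_zero]
  rw [hpush, map_sub, hk₀] at hnum2
  have hpos : 0 ≤ M.push (M.pb W + C.R) :=
    M.push_nonneg _ (add_nonneg (M.pb_nonneg _ hW0) C.R_nonneg)
  exact ((T.kod_nonneg X _).2 ⟨_, hpos, rfl⟩).trans (T.cpt X _ hpos hnum2)

/-- Sections of `(Ω¹)^{⊗p} ⊗ O(mK)` for infinitely many `m` give a class `L` with `cK - L`
pseudo-effective and `L + kK` effective for infinitely many `k`. -/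
theorem exists_divisor (T : Theory) (X : T.Var) (hK : T.K X ∈ T.psef X) (p : ℕ)
    (hm : {m : ℕ | ∃ s ∈ T.sec X p m, s ≠ 0}.Infinite) :
    ∃ (L : T.Div X) (c : ℚ) (S : Set ℕ), 0 < c ∧ c • T.K X - L ∈ T.psef X ∧ S.Infinite ∧
      ∀ k ∈ S, ∃ N, 0 ≤ N ∧ T.cl X N = L + (k : ℚ) • T.K X := by
  classical
  let A : Set ℕ := {m : ℕ | ∃ s ∈ T.sec X p m, s ≠ 0}
  have hA : ∀ m ∈ A, ∃ s, s ∈ T.sec X p m ∧ s ≠ 0 := fun m hm => by
    obtain ⟨s, h1, h2⟩ := hm
    exact ⟨s, h1, h2⟩
  choose! s hs1 hs2 using hA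
  obtain ⟨b₀, hb₀, -, hb₀s, hb₀i⟩ := exists_linearIndepOn_extension (K := T.Fn X) (v := s)
    (linearIndepOn_empty (T.Fn X) s) (Set.empty_subset A)
  have hfin : b₀.Finite := by
    have : Finite b₀ := LinearIndependent.finite hb₀i
    exact Set.toFinite b₀
  obtain ⟨L, ⟨c, hc0, hc⟩, hdet⟩ := T.det X hK p (Submodule.span (T.Fn X) (s '' A))
  refine ⟨L, c, {k | ∃ N, 0 ≤ N ∧ T.cl X N = L + (k : ℚ) • T.K X}, hc0, hc, ?_, fun k hk => hk⟩
  refine Set.infinite_of_forall_exists_gt fun n => ?_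
  obtain ⟨m, hmA, hnm⟩ := hm.exists_gt n
  have hmi : LinearIndepOn (T.Fn X) s {m} := by
    rw [linearIndepOn_singleton_iff]
    exact hs2 m hmA
  obtain ⟨b, hb, hmb, hbs, hbi⟩ := exists_linearIndepOn_extension hmi
    (show ({m} : Set ℕ) ⊆ insert m b₀ by simp)
  have hbA : b ⊆ A := hb.trans (Set.insert_subset hmA hb₀)
  have hbfin : b.Finite := (hfin.insert m).subset hb
  let _ : Fintype b := hbfin.fintype
  have hspan : Submodule.span (T.Fn X) (Set.range fun i : b => s i) =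
      Submodule.span (T.Fn X) (s '' A) := by
    have hr : (Set.range fun i : b => s i) = s '' b := by
      rw [Set.image_eq_range]
    rw [hr]
    apply le_antisymm
    · exact Submodule.span_mono (Set.image_mono hbA)
    · rw [Submodule.span_le]
      refine hb₀s.trans ?_
      have h1 : s '' b₀ ⊆ (Submodule.span (T.Fn X) (s '' b) : Set (T.Ten X p)) :=
        (Set.image_mono (Set.subset_insert m b₀)).trans hbs
      exact Submodule.span_le.2 h1
  obtain ⟨N, hN0, hN⟩ := hdet b (fun i => s i) (fun i => (i : ℕ)) hbi hspan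
    (fun i => hs1 _ (hbA i.2))
  refine ⟨∑ i : b, (i : ℕ), ⟨N, hN0, hN⟩, ?_⟩
  have h1 : m ≤ ∑ i : b, (i : ℕ) :=
    Finset.single_le_sum (f := fun i : b => (i : ℕ)) (fun _ _ => Nat.zero_le _)
      (Finset.mem_univ (⟨m, hmb rfl⟩ : b))
  omega

/-- **Theorem.**  Let `X` be a smooth projective variety with `dim X ≤ 6` or `κ_σ(K_X) ≤ 3`.
Suppose that `K_X` is pseudo-effective and that, for some `p`, the bundle
`(Ω¹_X)^{⊗p} ⊗ O(mK_X)` has a nonzero section for infinitely many `m > 0`; or that the canonical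
bundle is hermitian semipositive and `χ(X, O(mK_X)) ≠ 0` for some integer `m`, for instance
`χ(X, O_X) ≠ 0`.  Then `κ(X) ≥ 0`. -/
theorem result (T : Theory) (X : T.Var) (hX : T.dim X ≤ 6 ∨ T.nu X ≤ 3)
    (h : (T.K X ∈ T.psef X ∧ ∃ p, {m : ℕ | ∃ s ∈ T.sec X p m, s ≠ 0}.Infinite) ∨
      (T.semipos X ∧ ∃ m : ℤ, T.chi X m ≠ 0)) :
    0 ≤ T.kod X (T.K X) := by
  have key : T.K X ∈ T.psef X → (∃ p, {m : ℕ | ∃ s ∈ T.sec X p m, s ≠ 0}.Infinite) →
      0 ≤ T.kod X (T.K X) := by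
    rintro hK ⟨p, hp⟩
    obtain ⟨L, c, S, h1, h2, h3, h4⟩ := exists_divisor T X hK p hp
    exact main_divisor T X hX L c h1 h2 S h3 h4
  rcases h with ⟨h1, h2⟩ | ⟨h1, m₀, h2⟩
  · exact key h1 h2
  by_contra hneg
  have hfin : ∀ p, {m : ℕ | ∃ s ∈ T.sec X p m, s ≠ 0}.Finite := by
    intro p
    by_contra hinf
    exact hneg (key (T.semipos_psef X h1) ⟨p, hinf⟩)
  -- for large `m` there are no sections
  have hun : (⋃ p ∈ Finset.range (T.dim X + 1), {m : ℕ | ∃ s ∈ T.sec X p m, s ≠ 0}).Finite :=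
    Set.Finite.biUnion (Finset.finite_toSet _) fun p _ => hfin p
  obtain ⟨B, hB⟩ := hun.bddAbove
  have hchi : ∀ m : ℕ, B < m → T.chi X ((m : ℤ) + 1) = 0 := by
    intro m hBm
    refine T.lefschetz X h1 m fun p hp s hs => ?_
    by_contra hne
    have : m ≤ B := hB (Set.mem_biUnion (Finset.mem_coe.2 (Finset.mem_range.2 (by omega)))
      ⟨s, hs, hne⟩)
    omega
  obtain ⟨q, hq⟩ := T.chi_poly X
  have hq0 : q = 0 := by
    refine Polynomial.eq_zero_of_infinite_isRoot q ?_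
    have hinj : Function.Injective fun n : ℕ => ((B + 1 + n : ℕ) : ℚ) + 1 := by
      intro x y hxy
      have h3 : ((B + 1 + x : ℕ) : ℚ) + 1 = ((B + 1 + y : ℕ) : ℚ) + 1 := hxy
      have h4 : ((B + 1 + x : ℕ) : ℚ) = ((B + 1 + y : ℕ) : ℚ) := by linarith
      have h5 : B + 1 + x = B + 1 + y := by exact_mod_cast h4
      omega
    refine (Set.infinite_range_of_injective hinj).mono ?_
    rintro _ ⟨n, rfl⟩
    have h3 := hq (((B + 1 + n : ℕ) : ℤ) + 1)
    rw [hchi (B + 1 + n) (by omega)] at h3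
    have h4 : q.eval (((B + 1 + n : ℕ) : ℚ) + 1) = 0 := by
      rw [← Int.cast_zero, h3]
      push_cast
      rfl
    exact h4
  apply h2
  have h3 := hq m₀
  rw [hq0, Polynomial.eval_zero] at h3
  exact_mod_cast h3

end Pool.H84.SC.Old
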