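import Pool.Agent.H84.SC.Defs
import Pool.Agent.H84.SC.Old

/-!
From the flat structure of `Defs` to those of `Old`.
-/

noncomputable section

namespace Pool.H84.SC

namespace Theory

variable (T : Theory)

def toBase : Old.Base where
  Var := T.Var
  dim := T.dim
  PD := T.PD
  Div := fun X => T.Div X
  grp := fun X => inferInstanceAs (AddCommGroup (T.Div X))
  mod := fun X => inferInstanceAs (Module ℚ (T.Div X))
  cl := T.cl
  cl_surj := T.cl_surj
  K := T.K
  psef := fun X => {D | T.psef X D}
  num := T.num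
  kod := T.kod
  cl_psef := T.cl_psef
  psef_smul := T.psef_smul
  psef_lim := T.psef_lim
  kod_nonneg := T.kod_nonneg
  kod_le := T.kod_le
  kod_smul := T.kod_smul
  kod_mono := T.kod_mono
  rigid := T.rigid

def model {X : T.Var} (M : T.Model X) : Old.Model T.toBase X where
  X' := T.top X M
  Y := T.base X M
  pull := T.pull X M
  push := T.push X M
  pullC := T.pullC X M
  pull_nonneg := T.pull_nonneg X M
  push_nonneg := T.push_nonneg X M
  cl_pull := T.cl_pull X M
  push_pull := T.push_pull X M
  E := T.E X M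
  E_nonneg := T.E_nonneg X M
  push_E := T.push_E X M
  K_eq := T.K_eq X M
  kod_pull := T.kod_pull X M
  num_push := T.num_push X M
  pb := T.pb X M
  pbC := T.pbC X M
  pb_nonneg := T.pb_nonneg X M
  cl_pb := T.cl_pb X M
  num_pb := T.num_pb X M

def fibre {X : T.Var} (M : T.Model X) : Old.Fibre T.toBase (T.model M) where
  G := T.fib X M
  res := T.res X M
  resC := T.resC X M
  res_nonneg := T.res_nonneg X M
  cl_res := T.cl_res X M
  res_K := T.res_K X M
  res_pb := T.res_pb X M
  vertical := T.vertical X M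

def toOld : Old.Theory where
  toBase := T.toBase
  nu := T.nu
  kod_le_nu := T.kod_le_nu
  iitaka := by
    intro X N₀ h0 h1
    obtain ⟨M, h2, h3, h4⟩ := T.iitaka X N₀ h0 h1
    refine ⟨T.model M, T.fibre M, h2, h3, fun h5 => ?_⟩
    obtain ⟨P, R, S, comp, mult, a1, a2, a3, a4, a5, a6, a7, a8⟩ := h4 h5
    exact ⟨{ P := P, R := R, S := S, R_nonneg := a1, S_nonneg := a2, formula := a3, push_S := a4,
             res_S := a5, comp := comp, comp_inj := a6, mult := mult,
             one_le_mult := fun Γ => (a7 Γ).1, pb_comp := fun W Γ => (a7 Γ).2.1 W,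
             R_comp := fun Γ => (a7 Γ).2.2.1, S_comp := fun Γ => (a7 Γ).2.2.2,
             num_eff := a8 }⟩
  cpt := T.cpt
  good := T.good
  Fn := fun X => T.Fn X
  field := fun X => (T.isField X).toField
  Ten := fun X p => T.Ten X p
  tenGrp := fun X p => inferInstanceAs (AddCommGroup (T.Ten X p))
  tenMod := fun X p => inferInstanceAs (Module (T.Fn X) (T.Ten X p))
  tenFin := fun X p => T.finite X p
  sec := fun X p m => {s | T.sec X p m s}
  det := by
    intro X hX p W
    obtain ⟨L, h1, h2⟩ := T.det X hX p W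
    refine ⟨L, h1, ?_⟩
    intro ι _ s m hs hW hm
    have e := Fintype.equivFin ι
    obtain ⟨N, h3, h4⟩ := h2 (Fintype.card ι) (fun i => s (e.symm i)) (fun i => m (e.symm i))
      (hs.comp e.symm e.symm.injective) (by
        rw [← hW]
        congr 1
        exact e.symm.surjective.range_comp s) (fun i => hm _)
    refine ⟨N, h3, ?_⟩
    have h5 : ∑ i, m (e.symm i) = ∑ i, m i := Equiv.sum_comp e.symm m
    rw [h5] at h4
    exact h4
  semipos := T.semipos
  semipos_psef := T.semipos_psef
  chi := T.chi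
  chi_poly := T.chi_poly
  lefschetz := T.lefschetz

theorem main (X : T.Var) (hX : T.dim X ≤ 6 ∨ T.nu X ≤ 3)
    (h : (T.psef X (T.K X) ∧ ∃ p, {m : ℕ | ∃ s, T.sec X p m s ∧ s ≠ 0}.Infinite) ∨
      (T.semipos X ∧ ∃ m : ℤ, T.chi X m ≠ 0)) :
    0 ≤ T.kod X (T.K X) :=
  Old.result T.toOld X hX h

end Theory

end Pool.H84.SC
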