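import Mathlib

/-!
Definitions for the hand-in SemipositiveCanonical (problem MP_370cf3_ag).  The structure `Theory` is
flat: every field is stated with objects of the library.
-/

noncomputable section

namespace Pool.H84.SC

/-- Smooth projective complex varieties, with the published theorems used in the proof. -/
structure Theory where
  /-- The smooth projective varieties. -/
  Var : Type
  /-- The dimension. -/
  dim : Var → ℕ
  /-- The prime divisors. -/
  PD : Var → Type
  /-- The `ℚ`-divisors modulo `ℚ`-linear equivalence. -/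
  Div : Var → ModuleCat.{0} ℚ
  /-- The class of a `ℚ`-divisor. -/
  cl : ∀ X, (PD X →₀ ℚ) →ₗ[ℚ] Div X
  cl_surj : ∀ X D, ∃ N, cl X N = D
  /-- The canonical class. -/
  K : ∀ X, Div X
  /-- The pseudo-effective classes. -/
  psef : ∀ X, Div X → Prop
  /-- The numerically trivial classes. -/
  num : ∀ X, Submodule ℚ (Div X)
  /-- The Iitaka dimension. -/
  kod : ∀ X, Div X → WithBot ℕ
  cl_psef : ∀ X N, 0 ≤ N → psef X (cl X N)
  psef_smul : ∀ X D (c : ℚ), 0 < c → psef X D → psef X (c • D)
  psef_lim : ∀ X D E, (∀ ε : ℚ, 0 < ε → psef X (D + ε • E)) → psef X D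
  kod_nonneg : ∀ X D, 0 ≤ kod X D ↔ ∃ N, 0 ≤ N ∧ cl X N = D
  kod_le : ∀ X D, kod X D ≤ (dim X : WithBot ℕ)
  kod_smul : ∀ X D (c : ℚ), 0 < c → kod X (c • D) = kod X D
  kod_mono : ∀ X D N, 0 ≤ N → kod X D ≤ kod X (D + cl X N)
  /-- A class of Iitaka dimension `0` contains exactly one effective `ℚ`-divisor. -/
  rigid : ∀ X N N', 0 ≤ N → 0 ≤ N' → cl X N = cl X N' → kod X (cl X N) = 0 → N = N'
  /-- A birational morphism `μ : X' → X` of smooth projective varieties together with a fibration
  `f : X' → Y` (connected fibres) onto a smooth projective variety, and its geometric generic fibre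
  `G`, a smooth projective variety over an algebraic closure of the function field of `Y`, hence
  over `ℂ`. -/
  Model : Var → Type
  top : ∀ X, Model X → Var
  base : ∀ X, Model X → Var
  fib : ∀ X, Model X → Var
  /-- The pull-back `μ^*` of divisors. -/
  pull : ∀ X M, (PD X →₀ ℚ) →ₗ[ℚ] (PD (top X M) →₀ ℚ)
  /-- The push-forward `μ_*` of divisors. -/
  push : ∀ X M, (PD (top X M) →₀ ℚ) →ₗ[ℚ] (PD X →₀ ℚ)
  /-- The pull-back `μ^*` of classes. -/
  pullC : ∀ X M, Div X →ₗ[ℚ] Div (top X M)
  pull_nonneg : ∀ X M N, 0 ≤ N → 0 ≤ pull X M N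
  push_nonneg : ∀ X M N, 0 ≤ N → 0 ≤ push X M N
  cl_pull : ∀ X M N, cl (top X M) (pull X M N) = pullC X M (cl X N)
  push_pull : ∀ X M N, push X M (pull X M N) = N
  /-- The relative canonical divisor, effective and exceptional. -/
  E : ∀ X M, PD (top X M) →₀ ℚ
  E_nonneg : ∀ X M, 0 ≤ E X M
  push_E : ∀ X M, push X M (E X M) = 0
  K_eq : ∀ X M, K (top X M) = pullC X M (K X) + cl (top X M) (E X M)
  kod_pull : ∀ X M D N, 0 ≤ N → push X M N = 0 →
    kod (top X M) (pullC X M D + cl (top X M) N) = kod X D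
  num_push : ∀ X M N, cl (top X M) N ∈ num (top X M) → cl X (push X M N) ∈ num X
  /-- The pull-back `f^*` of divisors. -/
  pb : ∀ X M, (PD (base X M) →₀ ℚ) →ₗ[ℚ] (PD (top X M) →₀ ℚ)
  /-- The pull-back `f^*` of classes. -/
  pbC : ∀ X M, Div (base X M) →ₗ[ℚ] Div (top X M)
  pb_nonneg : ∀ X M W, 0 ≤ W → 0 ≤ pb X M W
  cl_pb : ∀ X M W, cl (top X M) (pb X M W) = pbC X M (cl (base X M) W)
  num_pb : ∀ X M, ∀ Q ∈ num (base X M), pbC X M Q ∈ num (top X M)
  /-- The restriction of divisors to `G` (components not dominating `Y` restrict to `0`). -/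
  res : ∀ X M, (PD (top X M) →₀ ℚ) →ₗ[ℚ] (PD (fib X M) →₀ ℚ)
  /-- The restriction of classes. -/
  resC : ∀ X M, Div (top X M) →ₗ[ℚ] Div (fib X M)
  res_nonneg : ∀ X M N, 0 ≤ N → 0 ≤ res X M N
  cl_res : ∀ X M N, cl (fib X M) (res X M N) = resC X M (cl (top X M) N)
  /-- Adjunction. -/
  res_K : ∀ X M, resC X M (K (top X M)) = K (fib X M)
  res_pb : ∀ X M Q, resC X M (pbC X M Q) = 0
  /-- A divisor whose class comes from `Y` and which restricts to `0` on `G` is the pull-back of a
  divisor. -/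
  vertical : ∀ X M V Q, res X M V = 0 → cl (top X M) V = pbC X M Q →
    ∃ W, V = pb X M W ∧ cl (base X M) W = Q
  /-- The numerical dimension `κ_σ(K_X)` (Nakayama). -/
  nu : Var → WithBot ℕ
  kod_le_nu : ∀ X N, 0 ≤ N → psef X (K X - cl X N) → kod X (cl X N) ≤ nu X
  /-- The Iitaka fibration `f : X' → Y` of an effective divisor `N₀`, with its geometric generic
  fibre `G`, the inequality `κ(μ^*N₀ + D) ≥ κ(D|_G) + dim Y` for effective `D`, and, if `κ(G) = 0`,
  the canonical bundle formula of Fujino and Mori: `K_{X'} + S ~ f^*P + R` with `P = K_Y + B + M`,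
  where `(Y, B + M)` is a generalised klt pair, `R, S` are effective, `S` is `μ`-exceptional, `f(S)` has
  codimension `≥ 2`, and `R` contains no full fibre over the generic point of a divisor of `Y`: every
  prime divisor `Γ` of `Y` is dominated by a component `comp Γ` of `f^*Γ`, of multiplicity `mult Γ`,
  not contained in `R`.  The last clause is numerical nonvanishing for generalised klt pairs in
  dimension `≤ 2` (Han, Liu). -/
  iitaka : ∀ X N₀, 0 ≤ N₀ → 1 ≤ kod X (cl X N₀) →
    ∃ M, kod X (cl X N₀) = (dim (base X M) : WithBot ℕ) ∧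
      (∀ D, 0 ≤ D → kod (fib X M) (cl (fib X M) (res X M D)) + (dim (base X M) : WithBot ℕ) ≤
        kod (top X M) (pullC X M (cl X N₀) + cl (top X M) D)) ∧
      (kod (fib X M) (K (fib X M)) = 0 →
        ∃ (P : Div (base X M)) (R S : PD (top X M) →₀ ℚ) (comp : PD (base X M) → PD (top X M))
          (mult : PD (base X M) → ℚ), 0 ≤ R ∧ 0 ≤ S ∧
          K (top X M) + cl (top X M) S = pbC X M P + cl (top X M) R ∧
          push X M S = 0 ∧ res X M S = 0 ∧ Function.Injective comp ∧
          (∀ Γ, 1 ≤ mult Γ ∧ (∀ W, pb X M W (comp Γ) = mult Γ * W Γ) ∧ R (comp Γ) = 0 ∧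
            S (comp Γ) = 0) ∧
          (dim (base X M) ≤ 2 → psef (base X M) P →
            ∃ W, 0 ≤ W ∧ P - cl (base X M) W ∈ num (base X M)))
  /-- Campana, Peternell, Toma: `κ(X) ≥ κ(N)` if `K_X` is numerically equivalent to the effective
  divisor `N`. -/
  cpt : ∀ X N, 0 ≤ N → K X - cl X N ∈ num X → kod X (cl X N) ≤ kod X (K X)
  /-- If `K_X - N` is pseudo-effective, `N` effective, and the general fibre of the Iitaka fibration
  of `N` has a good minimal model, then `κ(X) ≥ κ(N)` (Lai, Gongyo, Lehmann, Birkar, Cascini, Hacon,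
  McKernan); good minimal models exist for these fibres if their dimension is at most `3`, and also
  if `κ(N) = κ_σ(K_X)`, since then their numerical dimension is `0` (Nakayama, Gongyo, Druel). -/
  good : ∀ X N, 0 ≤ N → psef X (K X - cl X N) →
    ((dim X : WithBot ℕ) ≤ kod X (cl X N) + 3 ∨ kod X (cl X N) = nu X) →
    kod X (cl X N) ≤ kod X (K X)
  /-- The function field. -/
  Fn : Var → CommRingCat.{0}
  isField : ∀ X, IsField (Fn X)
  /-- The rational sections of `(Ω¹_X)^{⊗p}`; a rational canonical form being fixed, they are also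
  the rational sections of `(Ω¹_X)^{⊗p} ⊗ O(mK_X)` for all `m`. -/
  Ten : ∀ X, ℕ → ModuleCat.{0} (Fn X)
  finite : ∀ X p, Module.Finite (Fn X) (Ten X p)
  /-- The regular sections of `(Ω¹_X)^{⊗p} ⊗ O(mK_X)`. -/
  sec : ∀ X (p : ℕ), ℕ → Ten X p → Prop
  /-- For a subspace `W` of the rational tensors let `L` be the determinant of the saturated
  subsheaf of `(Ω¹_X)^{⊗p}` defined by `W`.  If `K_X` is pseudo-effective then `cK_X - L` is
  pseudo-effective for some `c > 0` (Campana, Păun); the exterior product of regular sections of the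
  twists by `m i • K_X` which form a basis of `W` is a nonzero section of `L + (∑ m i) K_X`. -/
  det : ∀ X, psef X (K X) → ∀ p, ∀ W : Submodule (Fn X) (Ten X p), ∃ L : Div X,
    (∃ c : ℚ, 0 < c ∧ psef X (c • K X - L)) ∧
    ∀ (n : ℕ) (s : Fin n → Ten X p) (m : Fin n → ℕ), LinearIndependent (Fn X) s →
      Submodule.span (Fn X) (Set.range s) = W → (∀ i, sec X p (m i) (s i)) →
      ∃ N, 0 ≤ N ∧ cl X N = L + ((∑ i, m i : ℕ) : ℚ) • K X
  /-- The canonical bundle has a (possibly singular) hermitian metric `h` with semipositive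
  curvature and trivial multiplier ideals `I(h^m)`, `m ≥ 1`; for example a smooth metric with
  semipositive curvature. -/
  semipos : Var → Prop
  semipos_psef : ∀ X, semipos X → psef X (K X)
  /-- The Euler characteristic `χ(X, O(mK_X))`. -/
  chi : Var → ℤ → ℤ
  chi_poly : ∀ X, ∃ q : Polynomial ℚ, ∀ m : ℤ, (chi X m : ℚ) = q.eval (m : ℚ)
  /-- The hard Lefschetz theorem (Takegoshi, Demailly, Peternell, Schneider):
  `H^0(X, Ω^{n-i} ⊗ O(mK_X)) → H^i(X, O((m+1)K_X))` is surjective for all `i`; and `Ω^p` is a direct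
  summand of `(Ω¹)^{⊗p}`. -/
  lefschetz : ∀ X, semipos X → ∀ m : ℕ, (∀ p ≤ dim X, ∀ s, sec X p m s → s = 0) →
    chi X ((m : ℤ) + 1) = 0

end Pool.H84.SC
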